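import Pool.Agent.Lib.MP_b5021c_nt.IfaceB

/-!
# Board b5, row FAC (helper84): faces and restrictions of stable elements are stable
-/

namespace Pool.Agent.B5.H84

open Pool.Agent.B5

section

variable {L : Type} [AddCommGroup L]

theorem sl_eval (u : AddChar L Circle) (lam : L →+ ℤ) (p : CA L) (s : ℂ) :
    (sl u lam p).eval s = p.coeff.sum fun a c => c * (u a : ℂ) * s ^ (lam a).toNat := by
  unfold sl
  rw [Finsupp.sum, Polynomial.eval_finsetSum, Finsupp.sum]
  refine Finset.sum_congr rfl fun a _ => ?_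
  rw [Polynomial.eval_monomial]

theorem gpart_coeff {K : Type} [Semiring K] (lam : L →+ ℤ) (c : ℤ) (G : AddMonoidAlgebra K L)
    (a : L) : (gpart lam c G).coeff a = if lam a = c then G.coeff a else 0 := by
  change (G.coeff.filter fun a => lam a = c) a = _
  rw [Finsupp.filter_apply]

theorem sl_gpart (u : AddChar L Circle) (mu lam : L →+ ℤ) (p : CA L) (hl : Nn lam p) (s : ℂ) :
    (sl u mu (gpart lam 0 p)).eval s =
      mev u (fun b : Bool => cond b mu lam) (fun b : Bool => cond b s 0) p := by
  rw [sl_eval]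
  unfold mev
  have hsub : (gpart lam 0 p).coeff.support ⊆ p.coeff.support := by
    intro a ha
    rw [Finsupp.mem_support_iff, gpart_coeff] at ha
    rw [Finsupp.mem_support_iff]
    intro h
    rw [h] at ha
    simp at ha
  rw [Finsupp.sum_of_support_subset _ hsub _ (fun a _ => by simp), Finsupp.sum]
  refine Finset.sum_congr rfl fun a ha => ?_
  rw [Fintype.prod_bool, gpart_coeff]
  simp only [cond_true, cond_false]
  by_cases h : lam a = 0
  · rw [if_pos h, h]
    simp
  · have h2 : 0 < (lam a).toNat := by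
      have := hl a ha
      omega
    rw [if_neg h, zero_pow h2.ne']
    simp

end

section

variable {O : Type} [CommRing O] [Coef O] {L : Type} [AddCommGroup L]

theorem spec_gpart (z : Circle) (lam : L →+ ℤ) (c : ℤ) (G : AO O L) :
    spec z (gpart lam c G) = gpart lam c (spec z G) := by
  apply AddMonoidAlgebra.ext
  apply Finsupp.ext
  intro a
  rw [spec_coeff, gpart_coeff, gpart_coeff, spec_coeff]
  split_ifs
  · rfl
  · exact map_zero _

theorem spec_supp (z : Circle) (G : AO O L) (a : L) (ha : a ∈ (spec z G).coeff.support) :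
    a ∈ G.coeff.support := by
  rw [Finsupp.mem_support_iff, spec_coeff] at ha
  rw [Finsupp.mem_support_iff]
  intro h
  rw [h, map_zero] at ha
  exact ha rfl

theorem pos_spec {lam : L →+ ℤ} {G : AO O L} (h : Pos lam G) (z : Circle) : Pos lam (spec z G) :=
  fun a ha h0 => h a (spec_supp z G a ha) h0

theorem nn_spec {lam : L →+ ℤ} {G : AO O L} (h : Nn lam G) (z : Circle) : Nn lam (spec z G) :=
  fun a ha => h a (spec_supp z G a ha)

theorem nn_of_pos {K : Type} [Semiring K] {lam : L →+ ℤ} {G : AddMonoidAlgebra K L}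
    (h : Pos lam G) : Nn lam G := by
  intro a ha
  by_cases h0 : a = 0
  · rw [h0, map_zero]
  · exact (h a ha h0).le

theorem sat_ker (lam : L →+ ℤ) : Sat (Ker lam) := by
  intro n a hn h
  rw [mem_Ker] at h ⊢
  rw [map_zsmul, smul_eq_mul] at h
  exact (mul_eq_zero.1 h).resolve_left hn

/-- slices of the restriction are slices of the face -/
theorem sl_res (lam mu : L →+ ℤ) (G : AO O L) (z : Circle) (u : AddChar (Ker lam) Circle)
    (u' : AddChar L Circle) (hu : ∀ a : Ker lam, u' (a : L) = u a) (s : ℂ) :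
    (sl u (mu.comp (incl (Ker lam))) (spec z (res (Ker lam) G))).eval s =
      (sl u' mu (spec z (gpart lam 0 G))).eval s := by
  rw [sl_eval, sl_eval, Finsupp.sum, Finsupp.sum]
  apply Finset.sum_nbij (fun a : Ker lam => (a : L))
  · intro a ha
    rw [Finsupp.mem_support_iff, spec_coeff, res_coeff] at ha
    rw [Finsupp.mem_support_iff, spec_coeff, gpart_coeff, if_pos (mem_Ker.1 a.2)]
    exact ha
  · intro a _ b _ h
    exact Subtype.ext h
  · intro b hb
    rw [Finset.mem_coe, Finsupp.mem_support_iff, spec_coeff, gpart_coeff] at hb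
    have hk : lam b = 0 := by
      by_contra h
      rw [if_neg h, map_zero] at hb
      exact hb rfl
    rw [if_pos hk] at hb
    refine ⟨⟨b, hk⟩, ?_, rfl⟩
    rw [Finset.mem_coe, Finsupp.mem_support_iff, spec_coeff, res_coeff]
    exact hb
  · intro a _
    rw [spec_coeff, spec_coeff, res_coeff, gpart_coeff, if_pos (mem_Ker.1 a.2), hu]
    rfl

end

/-- **FAC.** -/
theorem fac (hM : MultiS) (hS : StSpecS) (hE : ExtS) : FaceS := by
  intro O _ _ _ _ L _ _ _ G lam hG hl
  obtain ⟨h0, mu, hmu, hz⟩ := id hG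
  have key : ∀ z : Circle, evR z (G.coeff 0) ≠ 0 → ∀ (u : AddChar L Circle) (s : ℂ), ‖s‖ < 1 →
      (sl u mu (spec z (gpart lam 0 G))).eval s ≠ 0 := by
    intro z hz0 u s hs
    rw [spec_gpart, sl_gpart u mu lam _ (nn_spec hl z)]
    refine hM L (spec z G) ((hS O L G).1 hG z hz0) Bool _ ?_ ?_ u _ ?_
    · rintro (_ | _)
      · exact nn_spec hl z
      · exact nn_of_pos (pos_spec hmu z)
    · intro a ha ha0
      rw [Fintype.sum_bool]
      have h1 : 0 < mu a := pos_spec hmu z a ha ha0
      have h2 : 0 ≤ lam a := nn_spec hl z a ha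
      simp only [cond_true, cond_false]
      omega
    · rintro (_ | _)
      · simp
      · exact hs
  refine ⟨⟨?_, mu, ?_, ?_⟩, ⟨?_, mu.comp (incl (Ker lam)), ?_, ?_⟩⟩
  · rw [gpart_coeff, if_pos (map_zero lam)]
    exact h0
  · intro a ha ha0
    rw [Finsupp.mem_support_iff, gpart_coeff] at ha
    refine hmu a ?_ ha0
    rw [Finsupp.mem_support_iff]
    intro h
    rw [h] at ha
    simp at ha
  · intro z hz0
    rw [gpart_coeff, if_pos (map_zero lam)] at hz0
    exact key z hz0
  · rw [res_coeff]
    exact h0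
  · intro a ha ha0
    rw [Finsupp.mem_support_iff, res_coeff] at ha
    exact hmu (a : L) (Finsupp.mem_support_iff.2 ha) (fun h => ha0 (Subtype.ext h))
  · intro z hz0 u s hs
    rw [res_coeff] at hz0
    obtain ⟨u', hu'⟩ := (hE L (Ker lam) (sat_ker lam)).1 u
    rw [sl_res lam mu G z u u' hu']
    exact key z hz0 u' s hs

end Pool.Agent.B5.H84
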