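import Pool.Agent.Lib.MP_b5021c_nt.IfaceE5

/-!
# Board b5, row E5_BE5: Bessel's inequality for three coefficients
-/

namespace Pool.Agent.B5.H84.Be5

open Complex MeasureTheory Metric


theorem av_zpow (n : ℤ) (hn : n ≠ 0) : Real.circleAverage (fun z : ℂ => z ^ n) 0 1 = 0 := by
  rw [Real.circleAverage_eq_circleIntegral one_ne_zero]
  have h : (∮ z in C(0, 1), (z - 0)⁻¹ • (fun z : ℂ => z ^ n) z) =
      ∮ z in C(0, 1), (z - 0) ^ (n - 1) := by
    apply circleIntegral.integral_congr zero_le_one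
    intro z hz
    have hz0 : z ≠ 0 := by
      rintro rfl
      simp at hz
    simp only [sub_zero, smul_eq_mul]
    rw [zpow_sub_one₀ hz0]
    ring
  rw [h, circleIntegral.integral_sub_zpow_of_ne (by omega)]
  simp

theorem sphere_ne {z : ℂ} (hz : z ∈ sphere (0 : ℂ) 1) : z ≠ 0 := by
  rintro rfl
  simp at hz

theorem sphere_conj {z : ℂ} (hz : z ∈ sphere (0 : ℂ) 1) : (starRingEnd ℂ) z = z⁻¹ := by
  have h1 : ‖z‖ = 1 := by simpa using hz
  have h2 : z * (starRingEnd ℂ) z = 1 := by
    rw [Complex.mul_conj, Complex.normSq_eq_norm_sq, h1]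
    norm_num
  exact eq_inv_of_mul_eq_one_right h2

theorem ci {f : ℂ → ℂ} (hf : ContinuousOn f (sphere 0 1)) : CircleIntegrable f 0 1 :=
  hf.circleIntegrable zero_le_one

/-- (BE5) Bessel's inequality for three coefficients. -/
theorem be5 : Be5S := by
  intro g hg
  set a := Real.circleAverage g 0 1 with ha
  set b := Real.circleAverage (fun z => z * g z) 0 1 with hb
  set d := Real.circleAverage (fun z => z⁻¹ * g z) 0 1 with hd
  have hinv : ContinuousOn (fun z : ℂ => z⁻¹) (sphere 0 1) :=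
    continuousOn_inv₀.mono fun z hz => sphere_ne hz
  have hz1 : ContinuousOn (fun z : ℂ => z * g z) (sphere 0 1) := continuousOn_id.mul hg
  have hz2 : ContinuousOn (fun z : ℂ => z⁻¹ * g z) (sphere 0 1) := hinv.mul hg
  have hzp : ∀ n : ℤ, ContinuousOn (fun z : ℂ => z ^ n) (sphere 0 1) := fun n z hz =>
    (continuousAt_zpow₀ z n (Or.inl (sphere_ne hz))).continuousWithinAt
  set S : ℂ := ((‖a‖ ^ 2 + ‖b‖ ^ 2 + ‖d‖ ^ 2 : ℝ) : ℂ) with hS
  -- the linear part
  let L : ℂ → ℂ := fun z => (starRingEnd ℂ) a * g z + (starRingEnd ℂ) b * (z * g z) +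
    (starRingEnd ℂ) d * (z⁻¹ * g z)
  let Q : ℂ → ℂ := fun z => S + (((a * (starRingEnd ℂ) b + d * (starRingEnd ℂ) a) * z ^ (1 : ℤ) +
    (a * (starRingEnd ℂ) d + b * (starRingEnd ℂ) a) * z ^ (-1 : ℤ)) +
    (d * (starRingEnd ℂ) b * z ^ (2 : ℤ) + b * (starRingEnd ℂ) d * z ^ (-2 : ℤ)))
  have cst : ∀ (c : ℂ) (f : ℂ → ℂ),
      Real.circleAverage (fun z => c * f z) 0 1 = c * Real.circleAverage f 0 1 := by
    intro c f
    simpa [smul_eq_mul] using Real.circleAverage_fun_smul (a := c) (f := f) (c := 0) (R := 1)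
  have nsq : ∀ w : ℂ, (starRingEnd ℂ) w * w = ((‖w‖ ^ 2 : ℝ) : ℂ) := by
    intro w
    rw [mul_comm, Complex.mul_conj, Complex.normSq_eq_norm_sq]
  have hL : Real.circleAverage L 0 1 = S := by
    have e1 : Real.circleAverage L 0 1 =
        Real.circleAverage (fun z => (starRingEnd ℂ) a * g z + (starRingEnd ℂ) b * (z * g z)) 0 1 +
        Real.circleAverage (fun z => (starRingEnd ℂ) d * (z⁻¹ * g z)) 0 1 :=
      Real.circleAverage_fun_add
        (ci ((continuousOn_const.mul hg).add (continuousOn_const.mul hz1)))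
        (ci (continuousOn_const.mul hz2))
    have e2 : Real.circleAverage
        (fun z => (starRingEnd ℂ) a * g z + (starRingEnd ℂ) b * (z * g z)) 0 1 =
        Real.circleAverage (fun z => (starRingEnd ℂ) a * g z) 0 1 +
        Real.circleAverage (fun z => (starRingEnd ℂ) b * (z * g z)) 0 1 :=
      Real.circleAverage_fun_add (ci (continuousOn_const.mul hg)) (ci (continuousOn_const.mul hz1))
    rw [e1, e2, cst _ g, cst _ (fun z => z * g z), cst _ (fun z => z⁻¹ * g z), ← ha, ← hb, ← hd,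
      nsq, nsq, nsq, hS]
    push_cast
    ring
  have hQ : Real.circleAverage Q 0 1 = S := by
    have m : ∀ (c : ℂ) (n : ℤ), n ≠ 0 →
        Real.circleAverage (fun z : ℂ => c * z ^ n) 0 1 = 0 := by
      intro c n hn
      rw [cst c (fun z => z ^ n), av_zpow n hn, mul_zero]
    have cm : ∀ (c : ℂ) (n : ℤ), ContinuousOn (fun z : ℂ => c * z ^ n) (sphere 0 1) :=
      fun c n => continuousOn_const.mul (hzp n)
    have c1 := (cm (a * (starRingEnd ℂ) b + d * (starRingEnd ℂ) a) 1).add
      (cm (a * (starRingEnd ℂ) d + b * (starRingEnd ℂ) a) (-1))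
    have c2 := (cm (d * (starRingEnd ℂ) b) 2).add (cm (b * (starRingEnd ℂ) d) (-2))
    have e1 : Real.circleAverage Q 0 1 = _ :=
      Real.circleAverage_fun_add (f₁ := fun _ : ℂ => S) (c := 0) (R := 1) (ci continuousOn_const)
        (ci (c1.add c2))
    have e2 := Real.circleAverage_fun_add (c := 0) (R := 1) (ci c1) (ci c2)
    have e3 := Real.circleAverage_add (c := 0) (R := 1)
      (ci (cm (a * (starRingEnd ℂ) b + d * (starRingEnd ℂ) a) 1))
      (ci (cm (a * (starRingEnd ℂ) d + b * (starRingEnd ℂ) a) (-1)))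
    have e4 := Real.circleAverage_add (c := 0) (R := 1)
      (ci (cm (d * (starRingEnd ℂ) b) 2)) (ci (cm (b * (starRingEnd ℂ) d) (-2)))
    rw [m _ _ (by norm_num), m _ _ (by norm_num), add_zero] at e3 e4
    rw [e1, Real.circleAverage_const]
    simp only [Pi.add_apply] at e2
    rw [e2, e3, e4]
    simp
  let F : ℂ → ℂ := fun z => -2 * L z + Q z
  have cL : ContinuousOn L (sphere 0 1) :=
    ((continuousOn_const.mul hg).add (continuousOn_const.mul hz1)).add (continuousOn_const.mul hz2)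
  have cQ : ContinuousOn Q (sphere 0 1) :=
    continuousOn_const.add (((continuousOn_const.mul (hzp 1)).add
      (continuousOn_const.mul (hzp (-1)))).add ((continuousOn_const.mul (hzp 2)).add
      (continuousOn_const.mul (hzp (-2)))))
  have cF : ContinuousOn F (sphere 0 1) := (continuousOn_const.mul cL).add cQ
  have hF : Real.circleAverage F 0 1 = -S := by
    have e1 : Real.circleAverage F 0 1 =
        Real.circleAverage (fun z => -2 * L z) 0 1 + Real.circleAverage Q 0 1 :=
      Real.circleAverage_fun_add (ci (continuousOn_const.mul cL)) (ci cQ)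
    rw [e1, cst (-2) L, hL, hQ]
    ring
  -- the pointwise identity
  have key : ∀ z ∈ sphere (0 : ℂ) 1, 0 ≤ ‖g z‖ ^ 2 + (F z).re := by
    intro z hz
    have hz0 := sphere_ne hz
    have hc := sphere_conj hz
    have hs : ‖g z‖ ^ 2 + (F z).re = ‖g z - (a + b * z⁻¹ + d * z)‖ ^ 2 := by
      have h1 : ((‖g z - (a + b * z⁻¹ + d * z)‖ ^ 2 : ℝ) : ℂ) =
          (g z - (a + b * z⁻¹ + d * z)) * (starRingEnd ℂ) (g z - (a + b * z⁻¹ + d * z)) := by
        rw [Complex.mul_conj, Complex.normSq_eq_norm_sq]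
      have h2 : ((‖g z‖ ^ 2 : ℝ) : ℂ) = g z * (starRingEnd ℂ) (g z) := by
        rw [Complex.mul_conj, Complex.normSq_eq_norm_sq]
      have h3 : (L z).re = (((L z) + (starRingEnd ℂ) (L z)) / 2).re := by
        rw [Complex.add_conj]
        simp
      have hci : (starRingEnd ℂ) z⁻¹ = z := by
        rw [map_inv₀, hc, inv_inv]
      have h4 : (g z - (a + b * z⁻¹ + d * z)) * (starRingEnd ℂ) (g z - (a + b * z⁻¹ + d * z)) =
          g z * (starRingEnd ℂ) (g z) - (L z + (starRingEnd ℂ) (L z)) + Q z := by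
        have hSS : S = a * (starRingEnd ℂ) a + b * (starRingEnd ℂ) b + d * (starRingEnd ℂ) d := by
          rw [mul_comm a, mul_comm b, mul_comm d, nsq, nsq, nsq, hS]
          push_cast
          ring
        simp only [L, Q, hSS, map_sub, map_add, map_mul, hc, hci, Complex.conj_conj,
          zpow_neg, zpow_ofNat]
        field_simp
        ring
      have h5 : ((‖g z - (a + b * z⁻¹ + d * z)‖ ^ 2 : ℝ) : ℂ).re =
          (g z * (starRingEnd ℂ) (g z) - (L z + (starRingEnd ℂ) (L z)) + Q z).re := by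
        rw [h1, h4]
      rw [← h2, Complex.ofReal_re] at h5
      rw [h5]
      simp only [F, Complex.add_re, Complex.sub_re, Complex.ofReal_re, Complex.mul_re,
        Complex.conj_re, Complex.neg_re, Complex.neg_im, Complex.re_ofNat, Complex.im_ofNat]
      ring
    rw [hs]
    positivity
  have cn : ContinuousOn (fun z => ‖g z‖ ^ 2) (sphere (0 : ℂ) 1) := hg.norm.pow 2
  have cre : ContinuousOn (fun z => (F z).re) (sphere (0 : ℂ) 1) :=
    Complex.continuous_re.comp_continuousOn cF
  have hre : Real.circleAverage (fun z => (F z).re) 0 1 = -(‖a‖ ^ 2 + ‖b‖ ^ 2 + ‖d‖ ^ 2) := by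
    have := Complex.reCLM.circleAverage_comp_comm (ci cF)
    rw [hF] at this
    have h2 : (Complex.reCLM ∘ F) = fun z => (F z).re := by
      funext z
      rfl
    rw [h2] at this
    rw [this, hS]
    change (-((‖a‖ ^ 2 + ‖b‖ ^ 2 + ‖d‖ ^ 2 : ℝ) : ℂ)).re = _
    rw [Complex.neg_re, Complex.ofReal_re]
  have h0 : 0 ≤ Real.circleAverage (fun z => ‖g z‖ ^ 2 + (F z).re) 0 1 := by
    apply Real.circleAverage_nonneg_of_nonneg
    intro z hz
    rw [abs_one] at hz
    exact key z hz
  rw [Real.circleAverage_fun_add (cn.circleIntegrable zero_le_one)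
    (cre.circleIntegrable zero_le_one), hre] at h0
  linarith

end Pool.Agent.B5.H84.Be5
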