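import Pool.Agent.Lib.MP_b5021c_nt.IfaceE6Cr

/-!
# Board b5, row E6C_TTW: the double closing when the drop is at least two (`Ttw6S`)
-/

namespace Pool.Agent.B5.H84.Ttw

open scoped LaurentPolynomial
open Polynomial
open Pool.Agent.MP_b5021c_nt (Eis)

/-- A primitive sixth root of unity on the given side. -/
theorem root (y : ℝ) : ∃ w : Eisˣ, ‖Eis.emb (w : Eis)‖ = 1 ∧ (Eis.emb (w : Eis)).re = 1 / 2 ∧
    (Eis.emb (w : Eis)).im * y ≤ 0 ∧ (w : Eis) ≠ 1 := by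
  have h3 : (0 : ℝ) ≤ √3 / 2 := by positivity
  rcases le_total y 0 with hy | hy
  · refine ⟨⟨(⟨1, 1⟩ : Eis), (⟨0, -1⟩ : Eis), by decide, by decide⟩, ?_, ?_, ?_, ?_⟩
    · exact Eis.norm_emb_unit (Units.isUnit _)
    · change (Eis.emb (⟨1, 1⟩ : Eis)).re = 1 / 2
      rw [Eis.emb_re]
      norm_num
    · change (Eis.emb (⟨1, 1⟩ : Eis)).im * y ≤ 0
      rw [Eis.emb_im]
      have h1 : (((⟨1, 1⟩ : Eis).im : ℤ) : ℝ) = 1 := by norm_num
      rw [h1]
      nlinarith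
    · change (⟨1, 1⟩ : Eis) ≠ 1
      decide
  · refine ⟨⟨(⟨0, -1⟩ : Eis), (⟨1, 1⟩ : Eis), by decide, by decide⟩, ?_, ?_, ?_, ?_⟩
    · exact Eis.norm_emb_unit (Units.isUnit _)
    · change (Eis.emb (⟨0, -1⟩ : Eis)).re = 1 / 2
      rw [Eis.emb_re]
      norm_num
    · change (Eis.emb (⟨0, -1⟩ : Eis)).im * y ≤ 0
      rw [Eis.emb_im]
      have h1 : (((⟨0, -1⟩ : Eis).im : ℤ) : ℝ) = -1 := by norm_num
      rw [h1]
      nlinarith
    · change (⟨0, -1⟩ : Eis) ≠ 1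
      decide

/-- A port of a ray. -/
theorem port {P L : Type} [AddCommGroup L] (phi : L →+ (P → ℤ))
    {S : L} (hinj : Function.Injective phi) (hb : ∀ i, phi S i = 0 ∨ phi S i = 1) (h : S ≠ 0) :
    ∃ i, phi S i = 1 := by
  by_contra hc
  apply h
  apply hinj
  rw [map_zero]
  funext i
  rcases hb i with h1 | h1
  · exact h1
  · exact absurd ⟨i, h1⟩ hc

/-- (E6C_TTW) -/
theorem ttw (hT2c : T2cS) (hT2f : T2fS) (hMco : McoS) : Ttw6S := by
  intro P L _ _ _ _ _ phi D S0 S1 S2 e0 e1 e2 θ x y n q f s r T c hFP hK hθ hM1 hM2 hs2 hs1 hW hx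
    hc hu
  have hinj := hFP.dd.inj
  have hbin := hFP.dd.bin
  obtain ⟨hdis, -, -, -⟩ := hMco Eis P L phi D S0 S1 e0 e1 hinj hbin hM1
  obtain ⟨i0, h0⟩ := port phi hinj (hbin S0 hM1.r0.1) hM1.r0.2.1
  obtain ⟨i1, h1⟩ := port phi hinj (hbin S1 hM1.r1.1) hM1.r1.2.1
  have h10 : phi S1 i0 = 0 := by
    rcases hdis i0 with h | h
    · rw [h0] at h; exact absurd h (by norm_num)
    · exact h
  have h01 : phi S0 i1 = 0 := by
    rcases hdis i1 with h | h
    · exact h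
    · rw [h1] at h; exact absurd h (by norm_num)
  obtain ⟨w, hw1, hw2, hw3, hw4⟩ := root y
  obtain ⟨hQ, hF, hPD, hcT, hy3, -, -⟩ := hW
  have hk : ∀ a : Ker (co phi i0), co (phO phi S0 i0) i1 a = phi (a : L) i1 := by
    intro a
    change (if phi S0 i1 = 0 then phi (a : L) i1 else 0) = phi (a : L) i1
    rw [if_pos h01]
  have hT : S1 ∈ Ker (co phi i0) := mem_Ker.2 h10
  have hk1 : co (phO phi S0 i0) i1 (⟨S1, hT⟩ : Ker (co phi i0)) = 1 := by
    rw [hk]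
    exact h1
  let X : Dp phi S0 S1 := ⟨i0, h0, ⟨S1, hT⟩, rfl, i1, co (phO phi S0 i0) i1, hk, hk1⟩
  let t : (RO Eis)ˣ := Units.map (LaurentPolynomial.C : Eis →+* RO Eis).toMonoidHom w
  have htv : (t : RO Eis) = LaurentPolynomial.C (w : Eis) := rfl
  have ht : t ≠ 1 := by
    intro h
    apply hw4
    have h2 : (LaurentPolynomial.C (w : Eis) : RO Eis) = LaurentPolynomial.C 1 := by
      rw [← htv, h, Units.val_one, map_one]
    rw [← Polynomial.toLaurent_C, ← Polynomial.toLaurent_C] at h2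
    exact Polynomial.C_injective (Polynomial.toLaurent_injective h2)
  have hrk := hT2f Eis P L phi D S0 S1 S2 e0 e1 e2 t t hFP.dd hM1 hM2 hs2 hs1 ht ht X
  have hfc : ‖Eis.emb (f.coeff 0)‖ = 1 := Eis.norm_emb_unit hu
  have key := hT2c P L phi D θ S0 S1 e0 e1 (e0 * t) (e1 * t) (w : Eis) n q f s r T c i0 i1 h0
    ⟨S1, hT⟩ (co (phO phi S0 i0) i1) hk1 hFP hK (by norm_num; exact hθ) hM1.r0 hM1.r1 hM1.m0
    hM1.m1 rfl rfl (by rw [Units.val_mul, htv, mul_comm]) (by rw [Units.val_mul, htv, mul_comm])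
    hw1 hw2 hQ hF hPD (by linarith) (Or.inl hfc) hrk.symm
  have hθ0 : (0 : ℝ) < θ := by linarith
  rcases key with h | ⟨θ'', h1, h2⟩
  · exact Or.inl h
  · refine Or.inr ⟨θ'', ?_, h2⟩
    refine h1.trans ?_
    have hre : ((1 + Eis.emb (w : Eis)) * (c * (starRingEnd ℂ) T)).re =
        θ * (3 / 2 * x - (Eis.emb (w : Eis)).im * y) := by
      rw [hcT]
      simp only [Complex.mul_re, Complex.add_re, Complex.one_re, Complex.add_im, Complex.one_im,
        Complex.ofReal_re, Complex.ofReal_im, Complex.I_re, Complex.I_im, Complex.mul_im, hw2]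
      ring
    rw [hre, mul_div_cancel_left₀ _ hθ0.ne']
    linarith

end Pool.Agent.B5.H84.Ttw
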