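import Pool.Agent.Lib.MP_b5021c_nt.IfaceE6

/-!
# Board b5, row E6_TYA: loads of type A, `N'` small against `θ` (`TyaS`)
-/

namespace Pool.Agent.B5.H84.Tya

open scoped LaurentPolynomial
open Polynomial

/-- A port of a ray. -/
theorem port {P L : Type} [AddCommGroup L] (phi : L →+ (P → ℤ))
    {S : L} (hinj : Function.Injective phi) (hb : ∀ i, phi S i = 0 ∨ phi S i = 1) (h : S ≠ 0) :
    ∃ i, phi S i = 1 := by
  by_contra hc
  apply h
  apply hinj
  rw [map_zero]
  funext i
  rcases hb i with h1 | h1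
  · exact h1
  · exact absurd ⟨i, h1⟩ hc

/-- A load of type A leads to class `V`. -/
theorem typA {N' : ℝ} {Q V : RO ℤ} (h : TypA N' Q V) : ClassV N' V := by
  obtain ⟨n, q, e, -, hV, -, he, hz⟩ := h
  have h0 : e.coeff 0 ≠ 0 := by
    intro h0
    have := hz 0 (by simp)
    rw [← Polynomial.coeff_zero_eq_eval_zero, Polynomial.coeff_map, h0, map_zero] at this
    exact this rfl
  refine ⟨?_, n + 1, e, hV, he, hz⟩
  rw [← he]
  exact Coef.one_le _ h0

/-- Over `ℤ` the class of an element of class `V(N)` is one or at least two. -/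
theorem classV_int {N : ℝ} {Q : RO ℤ} (h : ClassV N Q) : N = 1 ∨ 2 ≤ N := by
  obtain ⟨h1, n, q, -, hN, -⟩ := h
  have h2 : ‖(Coef.emb (q.coeff 0) : ℂ)‖ = |((q.coeff 0 : ℤ) : ℝ)| := by
    change ‖((q.coeff 0 : ℤ) : ℂ)‖ = _
    rw [Complex.norm_intCast]
  rw [h2, ← Int.cast_abs] at hN
  rw [← hN] at h1 ⊢
  have h3 : 1 ≤ |q.coeff 0| := by exact_mod_cast h1
  rcases eq_or_lt_of_le h3 with h4 | h4
  · left
    rw [← h4]
    norm_num
  · right
    have h5 : 2 ≤ |q.coeff 0| := by omega
    exact_mod_cast h5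

theorem mono : Monotone fun x : ℝ => 2 * max 1 x + 4800 := by
  intro a b hab
  have := max_le_max_left 1 hab
  show 2 * max 1 a + 4800 ≤ 2 * max 1 b + 4800
  linarith

/-- (E6_TYA) -/
theorem tya (hTRE : TreS) (hFD : FDS) (hNBF : NbfS) (hBIG : Big6S) (hNUR : NurS) (hMV : MVS) :
    TyaS := by
  classical
  intro P L _ _ _ _ _ phi D S θ E e g N' hyp hFP h4 hP hRS hN' hA hK hg
  have hθ := hyp.big
  have hE := hyp.E0
  have hD := hFP.dd
  have hθpos : (0 : ℝ) < θ := by linarith
  have hinv : 1 / θ ≤ 1 / 2 := by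
    rw [div_le_div_iff₀ hθpos (by norm_num)]
    linarith
  obtain ⟨i0, hi0⟩ := port phi hD.inj (hD.bin S hRS.1) hRS.2.1
  have h : co phi i0 S = 1 := hi0
  have hV : ClassV N' (D.coeff 0 + (e : RO ℤ) * D.coeff S) := typA hA
  have hMV' := (hMV ℤ).1 N' _ hV
  have hMQ : M (D.coeff 0) = θ := ((hMV ℤ).2 θ _ hP).2
  rcases classV_int hV with h1 | h1
  · subst h1
    have hK' := hTRE ℤ P L phi D S e θ hD (by omega) hRS (by linarith) hP hA
    rw [← one_div] at hK'
    linarith
  · have hcc : CC phi D S i0 e := ⟨hD, by omega, hRS, h, hMV'.1⟩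
    obtain ⟨c, n, G, fd⟩ := hFD ℤ P L phi D S i0 e h hcc
    by_cases hbig : big G = ∅
    · have hsm : ∀ i, ¬ 1 < M ((G i).coeff 0) := by
        intro i hi
        have : i ∈ big G := by
          unfold big
          rw [Finset.mem_filter]
          exact ⟨Finset.mem_univ _, hi⟩
        rw [hbig] at this
        exact absurd this (Finset.notMem_empty _)
      have h3 := hNBF ℤ P L phi D S i0 e h c n G fd hsm
      rw [hMQ, hMV'.2] at h3
      linarith
    · have hm1 : 1 ≤ (big G).card := by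
        rw [Nat.one_le_iff_ne_zero, Ne, Finset.card_eq_zero]
        exact hbig
      obtain ⟨hcV, N₁, hN₁, hprod, hlsd, hrk⟩ := hBIG ℤ P L phi D S i0 e h c n G N'
        (fun x => 2 * max 1 x + 4800) hFP fd hV mono
        (fun x => by
          have := le_max_left 1 x
          show 1 ≤ 2 * max 1 x + 4800
          linarith)
        (fun x _ => hyp.v3 x)
      have hMc : 1 ≤ M c := hcV.1
      have hp0 : 0 ≤ ∏ i, N₁ i := Finset.prod_nonneg fun i _ => le_trans zero_le_one (hN₁ i).1.le
      have hple : ∏ i, N₁ i ≤ N' := by nlinarith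
      rw [hMQ] at hlsd
      rw [hMV'.2] at hg
      have hg' : g ≤ 11 ∨ Real.sqrt 3 ^ (g + 1) ≤ θ + 1 / 2 := by
        rcases hg with hg | hg
        · exact Or.inl (by omega)
        · exact Or.inr (by linarith)
      have hN2 : ∀ i, 2 ≤ N₁ i := by
        intro i
        obtain ⟨h5, Q', h6⟩ := hN₁ i
        rcases classV_int h6 with h7 | h7
        · linarith
        · exact h7
      have hfin := hNUR θ (big G).card (snp phi S i0 G).card g N₁ (by linarith) hm1 hN2
        (by linarith) (fun _ => by linarith) (by linarith) hg'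
      have hKR : (Module.finrank ℤ L : ℝ) = rk (supp (cl (co phi i0) S h e D)) + 1 + g := by
        exact_mod_cast hK i0 h
      have hrk' : (rk (supp (cl (co phi i0) S h e D)) : ℝ) ≤
          (snp phi S i0 G).card + ∑ i, (2 * max 1 (N₁ i) + 4800) := hrk
      linarith

end Pool.Agent.B5.H84.Tya
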